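import Mathlib
import Pool.Agent.H756Z.HypSMain

set_option autoImplicit false

open Pool.Agent.H756Z.HypS

namespace Pool.Agent.Results.MP_faea85_an.AWeakSeqNotHypercyclic

/-- Over the real and over the complex scalars there are a Banach space and a bounded linear
operator on it that is weakly sequentially hypercyclic but not hypercyclic. -/
theorem result :
    (∃ (B : Type) (_ : NormedAddCommGroup B) (_ : NormedSpace ℝ B) (_ : CompleteSpace B)
      (T : B →L[ℝ] B), WeaklySeqHypercyclic T ∧ ¬ Hypercyclic T) ∧
    (∃ (B : Type) (_ : NormedAddCommGroup B) (_ : NormedSpace ℂ B) (_ : CompleteSpace B)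
      (T : B →L[ℂ] B), WeaklySeqHypercyclic T ∧ ¬ Hypercyclic T) :=
  ⟨real_case, complex_case⟩

end Pool.Agent.Results.MP_faea85_an.AWeakSeqNotHypercyclic
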